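import Pool.Agent.FKP.StmtsS

/-! Rows GLS and GLR of squad FKP. -/

set_option autoImplicit false

open Finset Equiv

noncomputable section

namespace Pool.Agent.FKP.H75

open Pool.Agent.FKP

/-! ### positions and values -/

theorem posn_lo {m s : ℕ} (i : Fin s) : posn m s (lo i) = Sum.inl i := by
  rw [posn, Equiv.trans_apply, Equiv.symm_apply_eq]
  ext
  simp [lo]

theorem posn_hi {m s : ℕ} (a : Fin m) : posn m s (hi a) = Sum.inr a := by
  rw [posn, Equiv.trans_apply, Equiv.symm_apply_eq]
  ext
  simp [hi]

theorem skew_lo {m s : ℕ} (u : Perm (Fin s)) (v : Perm (Fin m)) (i : Fin s) :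
    (skew u v (lo i) : ℕ) = m + u i := by
  simp [skew, posn_lo]

theorem skew_hi {m s : ℕ} (u : Perm (Fin s)) (v : Perm (Fin m)) (a : Fin m) :
    (skew u v (hi a) : ℕ) = v a := by
  simp [skew, posn_hi]

theorem low_castAdd {m s : ℕ} (v : Perm (Fin m)) (a : Fin m) :
    low s v (Fin.castAdd s a) = Fin.castAdd s (v a) := by
  simp [low]

theorem low_lt {m s : ℕ} (v : Perm (Fin m)) (x : Fin (m + s)) (a : Fin m) (h : x.val = a.val) :
    (low s v x : ℕ) = v a := by
  have : x = Fin.castAdd s a := Fin.ext h
  rw [this, low_castAdd]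
  rfl

theorem low_ge {m s : ℕ} (v : Perm (Fin m)) (x : Fin (m + s)) (h : m ≤ x.val) :
    low s v x = x := by
  obtain ⟨i, rfl⟩ : ∃ i : Fin s, x = Fin.natAdd m i :=
    ⟨⟨x.val - m, by omega⟩, by ext; simp; omega⟩
  simp [low]

theorem lo_or_hi {m s : ℕ} (p : Fin (m + s)) :
    (∃ i : Fin s, p = lo i ∧ p.val < s) ∨ (∃ a : Fin m, p = hi a ∧ p.val = a + s) := by
  by_cases h : p.val < s
  · left; exact ⟨⟨p, h⟩, rfl, h⟩
  · right
    refine ⟨⟨p.val - s, by omega⟩, ?_, ?_⟩
    · ext; simp [hi]; omega
    · simp; omega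

theorem low_mul_skew {m s : ℕ} (u : Perm (Fin s)) (v : Perm (Fin m)) :
    low s v * skew u 1 = skew u v := by
  ext p
  rw [Perm.mul_apply]
  rcases lo_or_hi p with ⟨i, rfl, _⟩ | ⟨a, rfl, _⟩
  · rw [low_ge _ _ (by rw [skew_lo]; omega), skew_lo, skew_lo]
  · have h := skew_hi u (1 : Perm (Fin m)) a
    rw [low_lt _ _ a h, skew_hi]

/-! ### the induction over `u` -/

/-- the condition on `u` -/
def Cond (m s r : ℕ) (u : Perm (Fin (m + s))) : Prop :=
  (∀ a b : Fin (m + s), a < b → (u b).val < m → (u a).val < m → u a < u b) ∧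
    ∀ a : Fin (m + s), r + s ≤ a.val → (u a).val < m

theorem card_top {m s : ℕ} (u : Perm (Fin (m + s))) :
    (univ.filter fun p : Fin (m + s) => m ≤ (u p).val).card = s := by
  have h1 : (univ.filter fun p : Fin (m + s) => m ≤ (u p).val).map u.toEmbedding =
      (univ : Finset (Fin s)).map ⟨Fin.natAdd m, Fin.natAdd_injective s m⟩ := by
    ext x
    simp only [mem_map, mem_filter, mem_univ, true_and,
      Function.Embedding.coeFn_mk]
    constructor
    · rintro ⟨p, hp, rfl⟩
      exact ⟨⟨(u p).val - m, by omega⟩, by ext; simp; omega⟩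
    · rintro ⟨i, rfl⟩
      exact ⟨u.symm (Fin.natAdd m i), by simp, by simp⟩
  have h2 := congrArg Finset.card h1
  rw [card_map, card_map, card_univ, Fintype.card_fin] at h2
  exact h2

theorem eq_base {m s r : ℕ} (u : Perm (Fin (m + s))) (hu : Cond m s r u)
    (hno : ∀ i j : Fin (m + s), (i : ℕ) + 1 = j → j.val < r + s → m ≤ (u j).val → ¬ u i < u j) :
    u = skew Fin.revPerm 1 := by
  -- before a top value there are only larger ones
  have hA : ∀ (d : ℕ) (p q : Fin (m + s)), q.val + d + 1 = p.val → m ≤ (u p).val → u p < u q := by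
    intro d
    induction d with
    | zero =>
      intro p q hqp hp
      have hp' : p.val < r + s := by
        by_contra h
        exact absurd (hu.2 p (not_lt.1 h)) (not_lt.2 hp)
      have h1 := hno q p (by omega) hp' hp
      refine lt_of_le_of_ne (not_lt.1 h1) ?_
      intro h
      have := u.injective h
      rw [this] at hqp
      omega
    | succ d ih =>
      intro p q hqp hp
      have hp' : p.val < r + s := by
        by_contra h
        exact absurd (hu.2 p (not_lt.1 h)) (not_lt.2 hp)
      let p' : Fin (m + s) := ⟨p.val - 1, by omega⟩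
      have h1 := hno p' p (by simp only [p']; omega) hp' hp
      have h2 : u p < u p' := by
        refine lt_of_le_of_ne (not_lt.1 h1) ?_
        intro h
        have := u.injective h
        have h3 : p.val = p.val - 1 := congrArg Fin.val this
        omega
      exact h2.trans (ih p' q (by simp only [p']; omega) (hp.trans (Fin.lt_def.1 h2).le))
  have hA' : ∀ p q : Fin (m + s), q < p → m ≤ (u p).val → u p < u q := by
    intro p q hqp hp
    exact hA (p.val - q.val - 1) p q (by have := Fin.lt_def.1 hqp; omega) hp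
  -- the positions of the top values
  have hT : ∀ p : Fin (m + s), m ≤ (u p).val ↔ p.val < s := by
    intro p
    constructor
    · intro hp
      have hsub : (Finset.univ.filter fun q : Fin (m + s) => q ≤ p) ⊆
          univ.filter fun q : Fin (m + s) => m ≤ (u q).val := by
        intro q hq
        simp only [mem_filter, mem_univ, true_and] at hq ⊢
        rcases hq.lt_or_eq with h | h
        · exact hp.trans (Fin.lt_def.1 (hA' p q h hp)).le
        · rw [h]; exact hp
      have h2 := card_le_card hsub
      rw [card_top] at h2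
      have h3 : (Finset.univ.filter fun q : Fin (m + s) => q ≤ p).card = p.val + 1 := by
        rw [show (Finset.univ.filter fun q : Fin (m + s) => q ≤ p) = Finset.Iic p by
          ext q; simp]
        exact Fin.card_Iic p
      omega
    · intro hp
      by_contra h
      have hsub : (univ.filter fun q : Fin (m + s) => m ≤ (u q).val) ⊆
          (Finset.univ.filter fun q : Fin (m + s) => q < p) := by
        intro q hq
        simp only [mem_filter, mem_univ, true_and] at hq ⊢
        by_contra h'
        rcases (not_lt.1 h').lt_or_eq with h'' | h''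
        · exact h (hq.trans (Fin.lt_def.1 (hA' q p h'' hq)).le)
        · rw [← h''] at hq; exact h hq
      have h2 := card_le_card hsub
      rw [card_top] at h2
      have h3 : (Finset.univ.filter fun q : Fin (m + s) => q < p).card = p.val := by
        rw [show (Finset.univ.filter fun q : Fin (m + s) => q < p) = Finset.Iio p by
          ext q; simp]
        exact Fin.card_Iio p
      omega
  -- comparison with the base permutation
  set u0 : Perm (Fin (m + s)) := skew Fin.revPerm 1 with hu0
  have hmono : ∀ p q : Fin (m + s), u0 p < u0 q → u p < u q := by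
    intro p q hpq
    rw [Fin.lt_def] at hpq
    rcases lo_or_hi p with ⟨i, hi1, hi2⟩ | ⟨a, ha1, ha2⟩
    · rcases lo_or_hi q with ⟨i', hi1', hi2'⟩ | ⟨a', ha1', ha2'⟩
      · rw [hi1, hi1', hu0, skew_lo, skew_lo] at hpq
        simp only [Fin.revPerm_apply, Fin.val_rev] at hpq
        have e1 : p.val = i.val := by rw [hi1]; rfl
        have e2 : q.val = i'.val := by rw [hi1']; rfl
        refine hA' p q (Fin.lt_def.2 (by omega)) ((hT p).2 hi2)
      · rw [hi1, ha1', hu0, skew_lo, skew_hi] at hpq
        have := ((1 : Perm (Fin m)) a').2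
        omega
    · rcases lo_or_hi q with ⟨i', hi1', hi2'⟩ | ⟨a', ha1', ha2'⟩
      · have h1 : (u p).val < m := by
          by_contra h
          have := (hT p).1 (not_lt.1 h)
          omega
        exact Fin.lt_def.2 (h1.trans_le ((hT q).2 hi2'))
      · rw [ha1, ha1', hu0, skew_hi, skew_hi] at hpq
        simp only [Perm.one_apply] at hpq
        have h1 : (u p).val < m := by
          by_contra h
          have := (hT p).1 (not_lt.1 h)
          omega
        have h2 : (u q).val < m := by
          by_contra h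
          have := (hT q).1 (not_lt.1 h)
          omega
        exact hu.1 p q (Fin.lt_def.2 (by omega)) h2 h1
  have hs : StrictMono fun x => u (u0.symm x) := by
    intro x y hxy
    apply hmono
    simpa using hxy
  have hid : (fun x => u (u0.symm x)) = id := (StrictMono.range_inj hs strictMono_id).1 (by
    rw [Set.range_id]
    have : Function.Surjective fun x => u (u0.symm x) := u.surjective.comp u0.symm.surjective
    exact this.range_eq)
  ext p
  have := congrFun hid (u0 p)
  simp only [Equiv.symm_apply_apply, id] at this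
  rw [this]

/-- the measure -/
def wt {N : ℕ} (u : Perm (Fin N)) : ℤ := ∑ p : Fin N, (p.val : ℤ) * (u p).val

theorem wt_swap {N : ℕ} (u : Perm (Fin N)) (i j : Fin N) (hij : (i : ℕ) + 1 = j)
    (h : u i < u j) : wt (u * swap i j) < wt u := by
  have hne : i ≠ j := by intro h'; rw [h'] at hij; omega
  have e1 : wt (u * swap i j) = ∑ p : Fin N, ((swap i j p).val : ℤ) * (u p).val := by
    rw [wt]
    refine Fintype.sum_equiv (swap i j) _ _ fun p => ?_
    rw [Perm.mul_apply, swap_apply_self]
  have e2 : wt u - wt (u * swap i j) =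
      ∑ p : Fin N, ((p.val : ℤ) - (swap i j p).val) * (u p).val := by
    rw [e1, wt, ← Finset.sum_sub_distrib]
    exact Finset.sum_congr rfl fun p _ => by ring
  have e3 : ∑ p : Fin N, ((p.val : ℤ) - (swap i j p).val) * (u p).val =
      ((i.val : ℤ) - (swap i j i).val) * (u i).val +
        ((j.val : ℤ) - (swap i j j).val) * (u j).val := by
    refine Fintype.sum_eq_add i j hne ?_
    rintro x ⟨hxi, hxj⟩
    rw [swap_apply_of_ne_of_ne hxi hxj]
    ring
  rw [swap_apply_left, swap_apply_right] at e3
  have h' := Fin.lt_def.1 h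
  have e4 : (j.val : ℤ) = i.val + 1 := by rw [← hij]; push_cast; ring
  rw [e4] at e3
  have : wt u - wt (u * swap i j) = ((u j).val : ℤ) - (u i).val := by
    rw [e2, e3]; ring
  have h'' : ((u i).val : ℤ) < (u j).val := by exact_mod_cast h'
  linarith

theorem wt_nonneg {N : ℕ} (u : Perm (Fin N)) : 0 ≤ wt u := by
  rw [wt]
  exact Finset.sum_nonneg fun p _ => by positivity

theorem upInd (m s r : ℕ) (Q : Perm (Fin (m + s)) → Prop) (hbase : Q (skew Fin.revPerm 1))
    (hstep : ∀ u, ∀ i j : Fin (m + s), (i : ℕ) + 1 = j → j.val < r + s →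
      u i < u j → m ≤ (u j).val → Q (u * swap i j) → Q u) :
    ∀ u, Cond m s r u → Q u := by
  suffices H : ∀ (n : ℕ) (u : Perm (Fin (m + s))), (wt u).toNat = n → Cond m s r u → Q u from
    fun u hu => H _ u rfl hu
  intro n
  induction n using Nat.strong_induction_on with
  | _ n ih =>
  intro u hn hu
  by_cases hno : ∀ i j : Fin (m + s), (i : ℕ) + 1 = j → j.val < r + s → m ≤ (u j).val →
      ¬ u i < u j
  · rw [eq_base u hu hno]; exact hbase
  · push Not at hno
    obtain ⟨i, j, hij, hj, hm, hlt⟩ := hno
    refine hstep u i j hij hj hlt hm (ih _ ?_ (u * swap i j) rfl ?_)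
    · have h1 := wt_swap u i j hij hlt
      have h2 := wt_nonneg (u * swap i j)
      rw [← hn]
      omega
    · have hne : i ≠ j := by intro h'; rw [h'] at hij; omega
      constructor
      · intro a b hab hb ha
        rw [Perm.mul_apply] at hb ha
        rw [Perm.mul_apply, Perm.mul_apply]
        -- neither `swap a` nor `swap b` is `j`
        have ha' : swap i j a ≠ j := by intro h'; rw [h'] at ha; omega
        have hb' : swap i j b ≠ j := by intro h'; rw [h'] at hb; omega
        have ha'' : a ≠ i := by intro h'; apply ha'; rw [h', swap_apply_left]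
        have hb'' : b ≠ i := by intro h'; apply hb'; rw [h', swap_apply_left]
        have hab' := Fin.lt_def.1 hab
        refine hu.1 _ _ ?_ hb ha
        rw [Fin.lt_def]
        by_cases haj : a = j
        · rw [haj, swap_apply_right]
          have hbj : b ≠ j := by intro h'; rw [haj, h'] at hab'; omega
          rw [swap_apply_of_ne_of_ne hb'' hbj]
          rw [haj] at hab'
          omega
        · rw [swap_apply_of_ne_of_ne ha'' haj]
          by_cases hbj : b = j
          · rw [hbj, swap_apply_right]
            rw [hbj] at hab'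
            have : a.val ≠ i.val := fun h' => ha'' (Fin.ext h')
            omega
          · rw [swap_apply_of_ne_of_ne hb'' hbj]
            exact hab'
      · intro a ha
        rw [Perm.mul_apply]
        have h1 : a ≠ i := by intro h'; rw [h'] at ha; omega
        have h2 : a ≠ j := by intro h'; rw [h'] at ha; omega
        rw [swap_apply_of_ne_of_ne h1 h2]
        exact hu.2 a ha

/-! ### the colon ideal -/

/-- the polynomials `f` with `topm * f ∈ Isy` -/
def J (m s : ℕ) : Ideal (MvPolynomial (Fin (m + s)) ℤ) :=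
  Submodule.comap (LinearMap.mulLeft (MvPolynomial (Fin (m + s)) ℤ) (topm (m + s) s))
    (Isy (m + s))

theorem mem_J {m s : ℕ} {f : MvPolynomial (Fin (m + s)) ℤ} :
    f ∈ J m s ↔ topm (m + s) s * f ∈ Isy (m + s) := Iff.rfl

theorem isy_le_J (m s : ℕ) : Isy (m + s) ≤ J m s := fun f hf => by
  rw [mem_J]; exact Ideal.mul_mem_left _ _ hf

theorem X_mem_J (htop : TopStmt) {m s : ℕ} {i : Fin (m + s)} (hi : i.val < s) :
    MvPolynomial.X i ∈ J m s := htop (m + s) s i hi

theorem prod_mem_of {N : ℕ} (I : Ideal (MvPolynomial (Fin N) ℤ)) (t : Finset (Fin N)) (i : Fin N)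
    (hi : i ∈ t) (h : (MvPolynomial.X i : MvPolynomial (Fin N) ℤ) ∈ I) :
    (∏ i ∈ t, MvPolynomial.X i : MvPolynomial (Fin N) ℤ) ∈ I := by
  rw [← mul_prod_erase t _ hi]
  exact Ideal.mul_mem_right _ _ h

theorem ek_mem_of {N R k : ℕ} (I : Ideal (MvPolynomial (Fin N) ℤ))
    (h : ∀ t ∈ powersetCard k (univ.filter fun i : Fin N => i.val < R),
      ∃ i ∈ t, (MvPolynomial.X i : MvPolynomial (Fin N) ℤ) ∈ I) : ek N R k ∈ I := by
  rw [ek]
  refine Ideal.sum_mem _ fun t ht => ?_
  obtain ⟨i, hi, hI⟩ := h t ht
  exact prod_mem_of I t i hi hI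

theorem symF_ek (N R k : ℕ) : SymF R (ek N R k) := by
  intro a b ha hb
  have hF : (univ.filter fun i : Fin N => i.val < R).map (swap a b).toEmbedding =
      univ.filter fun i : Fin N => i.val < R := by
    ext x
    simp only [mem_map, mem_filter, mem_univ, true_and]
    constructor
    · rintro ⟨y, hy, rfl⟩
      change ((swap a b) y).val < R
      by_cases h1 : y = a
      · rw [h1, swap_apply_left]; exact hb
      · by_cases h2 : y = b
        · rw [h2, swap_apply_right]; exact ha
        · rw [swap_apply_of_ne_of_ne h1 h2]; exact hy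
    · intro hx
      refine ⟨swap a b x, ?_, swap_apply_self a b x⟩
      by_cases h1 : x = a
      · rw [h1, swap_apply_left]; exact hb
      · by_cases h2 : x = b
        · rw [h2, swap_apply_right]; exact ha
        · rw [swap_apply_of_ne_of_ne h1 h2]; exact hx
  have h1 : powersetCard k (univ.filter fun i : Fin N => i.val < R) =
      (powersetCard k (univ.filter fun i : Fin N => i.val < R)).map
        (mapEmbedding (swap a b).toEmbedding).toEmbedding := by
    rw [← powersetCard_map, hF]
  rw [ek, map_sum]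
  conv_rhs => rw [h1]
  rw [sum_map]
  refine sum_congr rfl fun t _ => ?_
  rw [map_prod]
  change _ = ∏ i ∈ t.map (swap a b).toEmbedding, MvPolynomial.X i
  rw [prod_map]
  exact prod_congr rfl fun i _ => MvPolynomial.rename_X _ _

/-- the embedding of the last positions -/
def hiE (m s : ℕ) : Fin m ↪ Fin (m + s) := ⟨hi, fun a b h => by
  have := congrArg Fin.val h
  simp only [hi, Fin.val_addNat] at this
  exact Fin.ext (by omega)⟩

theorem rename_hi_ek (m s k : ℕ) : MvPolynomial.rename (hi (m := m) (s := s)) (ek m m k) =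
    ∑ t ∈ powersetCard k ((univ : Finset (Fin m)).map (hiE m s)), ∏ i ∈ t, MvPolynomial.X i := by
  rw [powersetCard_map, sum_map, ek, map_sum]
  have hF : (univ.filter fun i : Fin m => i.val < m) = univ := by
    ext i; simp
  rw [hF]
  refine sum_congr rfl fun t _ => ?_
  rw [map_prod]
  change _ = ∏ i ∈ t.map (hiE m s), MvPolynomial.X i
  rw [prod_map]
  exact prod_congr rfl fun i _ => MvPolynomial.rename_X _ _

theorem rename_hi_ek_mem (htop : TopStmt) (m s k : ℕ) (hk : 1 ≤ k) :
    MvPolynomial.rename (hi (m := m) (s := s)) (ek m m k) ∈ J m s := by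
  have h1 : ek (m + s) (m + s) k ∈ J m s := isy_le_J m s (Ideal.subset_span ⟨k, hk, rfl⟩)
  have hF : (univ.filter fun i : Fin (m + s) => i.val < m + s) = univ := by
    ext i; simp
  have hsub : powersetCard k ((univ : Finset (Fin m)).map (hiE m s)) ⊆
      powersetCard k (univ : Finset (Fin (m + s))) := powersetCard_mono (subset_univ _)
  rw [ek, hF, ← sum_sdiff hsub, ← rename_hi_ek] at h1
  have h2 : (∑ t ∈ (powersetCard k (univ : Finset (Fin (m + s)))) \ (powersetCard k
      ((univ : Finset (Fin m)).map (hiE m s))), ∏ i ∈ t, MvPolynomial.X i) ∈ J m s := by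
    refine Ideal.sum_mem _ fun t ht => ?_
    rw [mem_sdiff, mem_powersetCard, mem_powersetCard] at ht
    obtain ⟨⟨_, ht1⟩, ht2⟩ := ht
    have : ∃ i ∈ t, i.val < s := by
      by_contra h
      push Not at h
      apply ht2
      refine ⟨fun i hi => ?_, ht1⟩
      have := h i hi
      rw [mem_map]
      refine ⟨⟨i.val - s, by omega⟩, mem_univ _, Fin.ext ?_⟩
      change i.val - s + s = i.val
      omega
    obtain ⟨i, hi, his⟩ := this
    exact prod_mem_of _ t i hi (X_mem_J htop his)
  exact (Ideal.add_mem_iff_right _ h2).1 h1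

theorem rename_hi_isy (htop : TopStmt) (m s : ℕ) {f : MvPolynomial (Fin m) ℤ}
    (hf : f ∈ Isy m) : MvPolynomial.rename (hi (m := m) (s := s)) f ∈ J m s := by
  have : Isy m ≤ (J m s).comap (MvPolynomial.rename (hi (m := m) (s := s))) := by
    rw [Isy, Ideal.span_le]
    rintro _ ⟨k, hk, rfl⟩
    exact rename_hi_ek_mem htop m s k hk
  exact this hf

theorem ek_lo_mem (htop : TopStmt) (m s k : ℕ) (hk : 1 ≤ k) : ek (m + s) s k ∈ J m s := by
  apply ek_mem_of
  intro t ht
  rw [mem_powersetCard] at ht
  have : t.Nonempty := by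
    rw [← card_pos]; omega
  obtain ⟨i, hi⟩ := this
  refine ⟨i, hi, X_mem_J htop ?_⟩
  have := ht.1 hi
  simpa using this

theorem ek_big_mem (htop : TopStmt) (m s r : ℕ) : ek (m + s) (r + s) (r + 1) ∈ J m s := by
  apply ek_mem_of
  intro t ht
  rw [mem_powersetCard] at ht
  by_contra h
  push Not at h
  have h1 : ∀ i ∈ t, s ≤ i.val := by
    intro i hi
    by_contra h'
    exact h i hi (X_mem_J htop (not_le.1 h'))
  have h2 : t.card ≤ r := by
    have h3 : (t.map Fin.valEmbedding) ⊆ Finset.Ico s (r + s) := by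
      intro x hx
      rw [mem_map] at hx
      obtain ⟨i, hi, rfl⟩ := hx
      rw [Finset.mem_Ico]
      refine ⟨h1 i hi, ?_⟩
      have := ht.1 hi
      simpa using this
    have h4 := card_le_card h3
    rw [card_map, Nat.card_Ico] at h4
    omega
  omega

theorem topm_eq (m s : ℕ) : topm (m + s) s =
    (∏ i : Fin s, MvPolynomial.X (lo i)) ^ m *
      MvPolynomial.rename lo (∏ j : Fin s, MvPolynomial.X j ^ (s - 1 - (j : ℕ))) := by
  rw [topm, map_prod, ← prod_pow, ← prod_mul_distrib]
  have hF : (univ.filter fun j : Fin (m + s) => j.val < s) =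
      (univ : Finset (Fin s)).map ⟨lo, fun a b h => Fin.ext (congrArg Fin.val h :)⟩ := by
    ext x
    simp only [mem_map, mem_filter, mem_univ, true_and]
    constructor
    · intro hx; exact ⟨⟨x.val, hx⟩, rfl⟩
    · rintro ⟨i, rfl⟩; exact i.2
  rw [hF, prod_map]
  refine prod_congr rfl fun i _ => ?_
  rw [map_pow, MvPolynomial.rename_X, ← pow_add]
  congr 1
  change m + s - 1 - i.val = m + (s - 1 - i.val)
  have := i.2
  omega

/-! ### the two rows -/

theorem step_alg (hddi : DdiStmt) {N : ℕ} {i j : Fin N} (hne : i ≠ j)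
    {A A' B B' G : MvPolynomial (Fin N) ℤ}
    (hA : (MvPolynomial.X i - MvPolynomial.X j) * A = A' - MvPolynomial.rename (swap i j) A')
    (hB : (MvPolynomial.X i - MvPolynomial.X j) * B = B' - MvPolynomial.rename (swap i j) B')
    (hG : MvPolynomial.rename (swap i j) G = G) (h : A' - B' * G ∈ Isy N) :
    A - B * G ∈ Isy N := by
  refine hddi N i j _ _ hne ?_ h
  rw [map_sub, map_mul, hG, mul_sub, hA, ← mul_assoc, hB]
  ring

theorem base (htop : TopStmt) (hcyc : CycStmt) {m s : ℕ}
    {S : Perm (Fin (m + s)) → MvPolynomial (Fin (m + s)) ℤ}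
    {S1 : Perm (Fin s) → MvPolynomial (Fin s) ℤ} {S2 : Perm (Fin m) → MvPolynomial (Fin m) ℤ}
    (h1 : IsSch s S1) (h2 : IsSch m S2)
    (h : ∀ u v, S (skew u v) = (∏ i : Fin s, MvPolynomial.X (lo i)) ^ m *
      MvPolynomial.rename lo (S1 u) * MvPolynomial.rename hi (S2 v)) :
    (∀ v, S (skew Fin.revPerm v) = topm (m + s) s * MvPolynomial.rename hi (S2 v)) ∧
    MvPolynomial.rename hi (S2 1) - 1 ∈ J m s := by
  constructor
  · intro v
    rw [h, h1.1, topm_eq]
  · have := rename_hi_isy htop m s (hcyc m S2 h2).1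
    rwa [map_sub, map_one] at this

theorem gls (hskw : SkwStmt) (htop : TopStmt) (hcyc : CycStmt) (hddi : DdiStmt) : GlsStmt := by
  intro m s S hS
  obtain ⟨S1, S2, h1, h2, h⟩ := hskw m s S hS
  refine ⟨S2, h2, fun r v u hv hu1 hu2 G hG hGv => ?_⟩
  obtain ⟨hb1, hb2⟩ := base htop hcyc h1 h2 h
  refine upInd m s r (fun u => S (low s v * u) - S u * G ∈ Isy (m + s)) ?_ ?_ u ⟨hu1, hu2⟩
  · rw [low_mul_skew, hb1, hb1]
    have e : topm (m + s) s * MvPolynomial.rename hi (S2 v) -
        topm (m + s) s * MvPolynomial.rename hi (S2 1) * G =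
        topm (m + s) s * (-(G - MvPolynomial.rename hi (S2 v)) -
          G * (MvPolynomial.rename hi (S2 1) - 1)) := by ring
    rw [e, ← mem_J]
    refine Ideal.sub_mem _ (Ideal.neg_mem_iff _ |>.2 ?_) (Ideal.mul_mem_left _ _ hb2)
    have : Ideal.span {z | ∃ k, 1 ≤ k ∧ z = ek (m + s) s k} ≤ J m s := by
      rw [Ideal.span_le]
      rintro _ ⟨k, hk, rfl⟩
      exact ek_lo_mem htop m s k hk
    exact this hGv
  · intro u i j hij hj hlt hm hQ
    have hne : i ≠ j := by intro h'; rw [h'] at hij; omega
    have hlt' := Fin.lt_def.1 hlt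
    have hsw : (u * swap i j) * swap i j = u := by
      rw [mul_assoc, swap_mul_self, mul_one]
    have hB := hS.2 (u * swap i j) i j hij (by
      rw [Perm.mul_apply, Perm.mul_apply, swap_apply_left, swap_apply_right]; exact hlt)
    have hA := hS.2 (low s v * (u * swap i j)) i j hij (by
      rw [Perm.mul_apply, Perm.mul_apply, Perm.mul_apply, Perm.mul_apply, swap_apply_left,
        swap_apply_right]
      rw [low_ge v (u j) hm]
      by_cases hui : (u i).val < m
      · rw [Fin.lt_def, low_lt v (u i) ⟨(u i).val, hui⟩ rfl]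
        exact ((v _).2).trans_le hm
      · rw [low_ge v (u i) (not_lt.1 hui)]; exact hlt)
    rw [hsw] at hB
    rw [mul_assoc, hsw] at hA
    refine step_alg hddi hne hA hB ?_ hQ
    exact hG i j (by omega) hj

theorem glr (hskw : SkwStmt) (htop : TopStmt) (hcyc : CycStmt) (hddi : DdiStmt) : GlrStmt := by
  intro m s S hS r u hu1 hu2
  obtain ⟨S1, S2, h1, h2, h⟩ := hskw m s S hS
  obtain ⟨hb1, _⟩ := base htop hcyc h1 h2 h
  refine upInd m s r (fun u => S u * ek (m + s) (r + s) (r + 1) ∈ Isy (m + s)) ?_ ?_ u
    ⟨hu1, hu2⟩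
  · rw [hb1, mul_assoc, ← mem_J]
    exact Ideal.mul_mem_left _ _ (ek_big_mem htop m s r)
  · intro u i j hij hj hlt hm hQ
    have hne : i ≠ j := by intro h'; rw [h'] at hij; omega
    have hsw : (u * swap i j) * swap i j = u := by
      rw [mul_assoc, swap_mul_self, mul_one]
    have hB := hS.2 (u * swap i j) i j hij (by
      rw [Perm.mul_apply, Perm.mul_apply, swap_apply_left, swap_apply_right]; exact hlt)
    rw [hsw] at hB
    have hz : (MvPolynomial.X i - MvPolynomial.X j : MvPolynomial (Fin (m + s)) ℤ) * 0 =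
        0 - MvPolynomial.rename (swap i j) 0 := by simp
    have := step_alg (A := 0) (A' := 0) hddi hne hz hB
      (symF_ek (m + s) (r + s) (r + 1) i j (by omega) hj) (by
        rw [zero_sub, Ideal.neg_mem_iff]; exact hQ)
    rwa [zero_sub, Ideal.neg_mem_iff] at this

end Pool.Agent.FKP.H75
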