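import Pool.Agent.FKP.Fin1

/-!
# FKP, module TT2: powers of the last Dunkl element times a hook-type factor

For `N = n + 2`, `t` the last index and `k < j ≤ n + 1`:
`(-x_t)^n * (e_(k+1)(X_j) + x_t e_k(X_j))` is a sum of words at the Dunkl elements.
-/

set_option autoImplicit false

open Finset Equiv

noncomputable section

namespace Pool.Agent.FKP.H75

variable {N : ℕ}

/-! ### star words -/

/-- the word `x_(c_1) t x_(c_2) t ..` -/
def zz (t : Fin N) (l : List (Fin N)) : A N := (l.map fun c => X c t).prod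

theorem zz_nil (t : Fin N) : zz t [] = 1 := rfl

theorem zz_cons (t a : Fin N) (l : List (Fin N)) : zz t (a :: l) = X a t * zz t l := by
  simp [zz]

theorem zz_append (t : Fin N) (l m : List (Fin N)) : zz t (l ++ m) = zz t l * zz t m := by
  simp [zz]

theorem zz_mem {t : Fin N} {l : List (Fin N)} (h : ∀ c ∈ l, c < t) : zz t l ∈ P N := by
  induction l with
  | nil => rw [zz_nil]; exact one_mem _
  | cons p l ih =>
    rw [zz_cons]
    exact mul_mem (X_mem (h p (List.mem_cons_self ..)))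
      (ih fun x hx => h x (List.mem_cons_of_mem _ hx))

theorem comm_zz {t a b : Fin N} (hat : a ≠ t) (hbt : b ≠ t) {l : List (Fin N)}
    (h : ∀ c ∈ l, a ≠ c ∧ b ≠ c) : X a b * zz t l = zz t l * X a b := by
  induction l with
  | nil => rw [zz_nil, mul_one, one_mul]
  | cons p l ih =>
    obtain ⟨h1, h2⟩ := h p (List.mem_cons_self ..)
    rw [zz_cons, ← mul_assoc, X_comm h1 hat h2 hbt, mul_assoc,
      ih fun x hx => h x (List.mem_cons_of_mem _ hx), mul_assoc]

theorem zz_rep {t a : Fin N} {l : List (Fin N)} (hn : (a :: l).Nodup)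
    (hl : ∀ c ∈ a :: l, c < t) : X a t * zz t l * X a t = 0 :=
  Fin1.str N t a l hn (Or.inl hl)

/-- a repeated letter kills -/
theorem zz_kill {t a : Fin N} {l : List (Fin N)} (hn : l.Nodup) (hl : ∀ c ∈ l, c < t)
    (ha : a ∈ l) : X a t * zz t l = 0 := by
  obtain ⟨u, v, rfl⟩ := List.append_of_mem ha
  have h1 : (a :: u).Nodup := by
    have := (List.perm_middle (a := a) (l₁ := u) (l₂ := v)).nodup_iff.1 hn
    rw [List.nodup_cons] at this ⊢
    exact ⟨fun h => this.1 (List.mem_append_left _ h), this.2.of_append_left⟩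
  have h2 : ∀ c ∈ a :: u, c < t := by
    intro c hc
    refine hl c ?_
    rcases List.mem_cons.1 hc with rfl | hc
    · exact ha
    · exact List.mem_append_left _ hc
  rw [zz_append, zz_cons, ← mul_assoc, ← mul_assoc, zz_rep h1 h2, zero_mul]

/-! ### emission and conjugation -/

theorem emis {t h b : Fin N} (hht : h ≠ t) (hbt : b ≠ t) (hhb : h ≠ b) {C₁ C₂ : List (Fin N)}
    (h1 : ∀ c ∈ C₁, h ≠ c ∧ b ≠ c) (h2 : ∀ c ∈ C₂, h ≠ c ∧ b ≠ c) :
    X h b * zz t (C₁ ++ b :: C₂) =
      zz t (C₁ ++ h :: C₂) * X h b + zz t (C₁ ++ b :: h :: C₂) := by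
  simp only [zz_append, zz_cons]
  have e1 := comm_zz hht hbt h1
  have e2 := comm_zz hht hbt h2
  have e3 := X_path (N := N) hhb hbt hht
  calc X h b * (zz t C₁ * (X b t * zz t C₂)) = (X h b * zz t C₁) * (X b t * zz t C₂) := by
        rw [mul_assoc]
    _ = zz t C₁ * (X h b * X b t) * zz t C₂ := by rw [e1]; simp only [mul_assoc]
    _ = zz t C₁ * (X h t * (X h b * zz t C₂)) + zz t C₁ * (X b t * (X h t * zz t C₂)) := by
        rw [e3, mul_add, add_mul]; simp only [mul_assoc]
    _ = _ := by rw [e2]; simp only [mul_assoc]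

theorem conj_alg {R : Type*} [Ring R] {u v w x y z : R} (h1 : z * u = u * z) (h2 : z * v = v * z)
    (h3 : z * w = w * z) (F1 : z * x = y * z - x * y) (F2 : z * y = x * z + y * x)
    (F3 : y * v * y = 0) : z * (u * (x * (v * (y * w)))) = u * (y * (v * (x * w))) * z := by
  calc z * (u * (x * (v * (y * w)))) = u * (z * x) * (v * (y * w)) := by
        rw [← mul_assoc, h1]; simp only [mul_assoc]
    _ = u * (y * z - x * y) * (v * (y * w)) := by rw [F1]
    _ = u * y * (z * v) * (y * w) - u * x * (y * v * y) * w := by noncomm_ring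
    _ = u * y * (v * z) * (y * w) := by rw [F3, h2]; simp
    _ = u * y * v * (z * y) * w := by simp only [mul_assoc]
    _ = u * y * v * (x * z + y * x) * w := by rw [F2]
    _ = u * y * v * x * (z * w) + u * (y * v * y) * (x * w) := by noncomm_ring
    _ = u * (y * (v * (x * w))) * z := by
        rw [h3, F3, mul_zero, zero_mul, add_zero]; simp only [mul_assoc]

theorem conj1 {t a b : Fin N} (hab : a ≠ b) {U V W : List (Fin N)}
    (hn : (U ++ a :: (V ++ b :: W)).Nodup) (hl : ∀ c ∈ U ++ a :: (V ++ b :: W), c < t) :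
    X a b * zz t (U ++ a :: (V ++ b :: W)) = zz t (U ++ b :: (V ++ a :: W)) * X a b := by
  have hat : a ≠ t := (hl a (by simp)).ne
  have hbt : b ≠ t := (hl b (by simp)).ne
  have hn' := hn
  rw [List.nodup_append, List.nodup_cons, List.nodup_append, List.nodup_cons] at hn'
  obtain ⟨-, ⟨n1, n2, ⟨n3, n4⟩, n5⟩, n6⟩ := hn'
  have hU : ∀ c ∈ U, a ≠ c ∧ b ≠ c := fun c hc =>
    ⟨fun e => n6 c hc a (by simp) e.symm, fun e => n6 c hc b (by simp) e.symm⟩
  have hV : ∀ c ∈ V, a ≠ c ∧ b ≠ c := fun c hc =>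
    ⟨fun e => n1 (by rw [e]; simp [hc]), fun e => n5 c hc b (by simp) e.symm⟩
  have hW : ∀ c ∈ W, a ≠ c ∧ b ≠ c := fun c hc =>
    ⟨fun e => n1 (by rw [e]; simp [hc]), fun e => n3 (by rw [e]; exact hc)⟩
  simp only [zz_append, zz_cons]
  refine conj_alg (comm_zz hat hbt hU) (comm_zz hat hbt hV) (comm_zz hat hbt hW) ?_
    (X_path hab hbt hat) (zz_rep (by
      rw [List.nodup_cons]; exact ⟨fun h => (hV b h).2 rfl, n2⟩) ?_)
  · rw [X_path' hab hbt hat]; abel
  · intro c hc
    refine hl c ?_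
    rcases List.mem_cons.1 hc with rfl | hc
    · simp
    · simp [hc]

theorem mapsw {a b : Fin N} {U : List (Fin N)} (h : ∀ c ∈ U, a ≠ c ∧ b ≠ c) :
    U.map (swap a b) = U := by
  have : ∀ c ∈ U, swap a b c = id c := fun c hc =>
    swap_apply_of_ne_of_ne (h c hc).1.symm (h c hc).2.symm
  rw [List.map_congr_left this, List.map_id]

theorem conj {t a b : Fin N} (hab : a ≠ b) {τ : List (Fin N)} (hn : τ.Nodup)
    (hl : ∀ c ∈ τ, c < t) (ha : a ∈ τ) (hb : b ∈ τ) :
    X a b * zz t τ = zz t (τ.map (swap a b)) * X a b := by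
  obtain ⟨U, V', rfl⟩ := List.append_of_mem ha
  have hn' := hn
  rw [List.nodup_append, List.nodup_cons] at hn'
  obtain ⟨m1, ⟨m2, m3⟩, m4⟩ := hn'
  rcases List.mem_append.1 hb with h | h
  · obtain ⟨U₁, U₂, rfl⟩ := List.append_of_mem h
    have e : (U₁ ++ b :: U₂) ++ a :: V' = U₁ ++ b :: (U₂ ++ a :: V') := by simp
    rw [e] at hn hl ⊢
    have k := conj1 hab.symm hn hl
    rw [List.nodup_append, List.nodup_cons] at m1
    have h1 : ∀ c ∈ U₁, a ≠ c ∧ b ≠ c := fun c hc =>
      ⟨fun e => m4 c (by simp [hc]) a (by simp) e.symm, fun e => m1.2.2 c hc b (by simp) e.symm⟩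
    have h2 : ∀ c ∈ U₂, a ≠ c ∧ b ≠ c := fun c hc =>
      ⟨fun e => m4 c (by simp [hc]) a (by simp) e.symm, fun e => m1.2.1.1 (by rw [e]; exact hc)⟩
    have h3 : ∀ c ∈ V', a ≠ c ∧ b ≠ c := fun c hc =>
      ⟨fun e => m2 (by rw [e]; exact hc), fun e => m4 b (by simp) c (by simp [hc]) e⟩
    rw [List.map_append, List.map_cons, List.map_append, List.map_cons, mapsw h1, mapsw h2,
      mapsw h3, swap_apply_left, swap_apply_right, X_neg b a, neg_mul, k, mul_neg]
  · rcases List.mem_cons.1 h with h | h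
    · exact absurd h.symm hab
    · obtain ⟨V, W, rfl⟩ := List.append_of_mem h
      have k := conj1 hab hn hl
      rw [List.nodup_append, List.nodup_cons] at m3
      have h1 : ∀ c ∈ U, a ≠ c ∧ b ≠ c := fun c hc =>
        ⟨fun e => m4 c hc a (by simp) e.symm, fun e => m4 c hc b (by simp) e.symm⟩
      have h2 : ∀ c ∈ V, a ≠ c ∧ b ≠ c := fun c hc =>
        ⟨fun e => m2 (by rw [e]; simp [hc]), fun e => m3.2.2 c hc b (by simp) e.symm⟩
      have h3 : ∀ c ∈ W, a ≠ c ∧ b ≠ c := fun c hc =>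
        ⟨fun e => m2 (by rw [e]; simp [hc]), fun e => m3.2.1.1 (by rw [e]; exact hc)⟩
      rw [List.map_append, List.map_cons, List.map_append, List.map_cons, mapsw h1, mapsw h2,
        mapsw h3, swap_apply_left, swap_apply_right, k]

/-! ### moving a word to the right of a star word -/

theorem mv {t h β : Fin N} (hh : h < t) (hβ : β < t) (l : List (Fin N × Fin N))
    {τ : List (Fin N)} (hn : τ.Nodup) (ht : ∀ c ∈ τ, c < t)
    (hl : ∀ p ∈ l, p.1 ≠ p.2 ∧ p.1 ∈ τ ∧ p.2 ∈ τ ∧ (h ≠ p.1 ∧ β ≠ p.1) ∧ h ≠ p.2 ∧ β ≠ p.2) :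
    ∃ τ' : List (Fin N), τ'.Nodup ∧ (∀ x, x ∈ τ' ↔ x ∈ τ) ∧ wd l * zz t τ = zz t τ' * wd l ∧
      wd l * zz t (τ.map (swap h β)) = zz t (τ'.map (swap h β)) * wd l := by
  induction l with
  | nil => exact ⟨τ, hn, fun x => Iff.rfl, by rw [H2.wd_nil, one_mul, mul_one],
      by rw [H2.wd_nil, one_mul, mul_one]⟩
  | cons p l ih =>
    obtain ⟨c, d⟩ := p
    obtain ⟨τ', i1, i2, i3, i4⟩ := ih fun p hp => hl p (List.mem_cons_of_mem _ hp)
    obtain ⟨hcd, hc, hd, ⟨hhc, hβc⟩, hhd, hβd⟩ := hl (c, d) (List.mem_cons_self ..)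
    simp only at hcd hc hd hhc hβc hhd hβd
    have hc' : c ∈ τ' := (i2 c).2 hc
    have hd' : d ∈ τ' := (i2 d).2 hd
    have ht' : ∀ x ∈ τ', x < t := fun x hx => ht x ((i2 x).1 hx)
    have hs : ∀ x ∈ τ'.map (swap h β), x < t := by
      intro x hx
      obtain ⟨y, hy, rfl⟩ := List.mem_map.1 hx
      by_cases h1 : y = h
      · rw [h1, swap_apply_left]; exact hβ
      · by_cases h2 : y = β
        · rw [h2, swap_apply_right]; exact hh
        · rw [swap_apply_of_ne_of_ne h1 h2]; exact ht' y hy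
    have hcs : c ∈ τ'.map (swap h β) :=
      List.mem_map.2 ⟨c, hc', swap_apply_of_ne_of_ne hhc.symm hβc.symm⟩
    have hds : d ∈ τ'.map (swap h β) :=
      List.mem_map.2 ⟨d, hd', swap_apply_of_ne_of_ne hhd.symm hβd.symm⟩
    have hsn : (τ'.map (swap h β)).Nodup := i1.map (swap h β).injective
    have hcomm : (τ'.map (swap h β)).map (swap c d) = (τ'.map (swap c d)).map (swap h β) := by
      rw [List.map_map, List.map_map]
      refine List.map_congr_left fun x _ => ?_
      show swap c d (swap h β x) = swap h β (swap c d x)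
      by_cases h1 : x = h
      · subst h1
        rw [swap_apply_left, swap_apply_of_ne_of_ne hβc hβd, swap_apply_of_ne_of_ne hhc hhd,
          swap_apply_left]
      · by_cases h2 : x = β
        · subst h2
          rw [swap_apply_right, swap_apply_of_ne_of_ne hhc hhd, swap_apply_of_ne_of_ne hβc hβd,
            swap_apply_right]
        · rw [swap_apply_of_ne_of_ne h1 h2]
          by_cases h3 : x = c
          · subst h3
            rw [swap_apply_left, swap_apply_of_ne_of_ne hhd.symm hβd.symm]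
          · by_cases h4 : x = d
            · subst h4
              rw [swap_apply_right, swap_apply_of_ne_of_ne hhc.symm hβc.symm]
            · rw [swap_apply_of_ne_of_ne h3 h4, swap_apply_of_ne_of_ne h1 h2]
    refine ⟨τ'.map (swap c d), i1.map (swap c d).injective, fun x => ?_, ?_, ?_⟩
    · rw [← i2 x, List.mem_map]
      constructor
      · rintro ⟨y, hy, rfl⟩
        by_cases h1 : y = c
        · rw [h1, swap_apply_left]; exact hd'
        · by_cases h2 : y = d
          · rw [h2, swap_apply_right]; exact hc'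
          · rw [swap_apply_of_ne_of_ne h1 h2]; exact hy
      · intro hx
        by_cases h1 : x = c
        · exact ⟨d, hd', by rw [h1, swap_apply_right]⟩
        · by_cases h2 : x = d
          · exact ⟨c, hc', by rw [h2, swap_apply_left]⟩
          · exact ⟨x, hx, swap_apply_of_ne_of_ne h1 h2⟩
    · rw [H2.wd_cons]
      show X c d * wd l * zz t τ = _
      rw [mul_assoc, i3, ← mul_assoc, conj hcd i1 ht' hc' hd', mul_assoc]
    · rw [H2.wd_cons]
      show X c d * wd l * zz t (τ.map (swap h β)) = _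
      rw [mul_assoc, i4, ← mul_assoc, conj hcd hsn hs hcs hds, mul_assoc, hcomm]

/-! ### the domination -/

theorem dom_alg {R : Type*} [Ring R] {p q r w z0 z1 z2 s0 s1 e1 e2 g1 g2 : R}
    (E0 : r * z1 = z0 * r + z2) (Cw : r * w = w * r) (T : p * q = q * r - r * p)
    (M0 : w * z0 = s0 * w) (M1 : w * z1 = s1 * w) (E1 : p * s1 = e1 * p + e2)
    (E2 : q * s0 = g1 * q + g2) (J1 : r * e1 = g1 * r) (J2 : r * e2 = g2 * r) :
    p * (q * (w * z1)) - q * (w * z2) = g1 * (p * (q * w)) := by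
  have k1 : z2 = r * z1 - z0 * r := by rw [E0]; abel
  have a1 : q * (w * z2) = q * r * (w * z1) - (g1 * q + g2) * (r * w) := by
    calc q * (w * z2) = q * (w * r) * z1 - q * (w * z0) * r := by rw [k1]; noncomm_ring
      _ = q * (r * w) * z1 - q * (s0 * w) * r := by rw [Cw, M0]
      _ = q * r * (w * z1) - (q * s0) * (w * r) := by simp only [mul_assoc]
      _ = _ := by rw [E2, Cw]
  have a2 : p * (q * (w * z1)) = q * r * (w * z1) - (g1 * r * p * w + g2 * r * w) := by
    calc p * (q * (w * z1)) = (p * q) * (w * z1) := by rw [mul_assoc]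
      _ = q * r * (w * z1) - r * p * (w * z1) := by rw [T, sub_mul]
      _ = q * r * (w * z1) - r * p * (s1 * w) := by rw [M1]
      _ = q * r * (w * z1) - r * (p * s1) * w := by simp only [mul_assoc]
      _ = q * r * (w * z1) - ((r * e1) * p * w + (r * e2) * w) := by rw [E1]; noncomm_ring
      _ = _ := by rw [J1, J2]
  rw [a1, a2]
  have a3 : g1 * (p * (q * w)) = g1 * (q * r - r * p) * w := by rw [← T]; simp only [mul_assoc]
  rw [a3]
  noncomm_ring

theorem dom2 {t h β b : Fin N} {A B : List (Fin N)} {l₁ l₃ : List (Fin N × Fin N)}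
    (hn : (A ++ β :: h :: B).Nodup) (ht : ∀ c ∈ A ++ β :: h :: B, c < t)
    (hfull : ∀ c, c < t → c ∈ A ++ β :: h :: B)
    (hl₁ : ∀ p ∈ l₁, p.1 < p.2) (hhb : h < b) (hβb : β < b) (hbt : b < t)
    (hl₃ : ∀ p ∈ l₃, p.1 < p.2 ∧ p.2 < t ∧ (h ≠ p.1 ∧ β ≠ p.1) ∧ h ≠ p.2 ∧ β ≠ p.2) :
    wd (l₁ ++ (h, b) :: (β, b) :: l₃) * zz t (A ++ β :: B) -
      wd (l₁ ++ (β, b) :: l₃) * zz t (A ++ β :: h :: B) ∈ P N := by
  have hh : h < t := hhb.trans hbt
  have hβ : β < t := hβb.trans hbt
  have hn' := hn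
  rw [List.nodup_append, List.nodup_cons, List.nodup_cons] at hn'
  obtain ⟨n1, ⟨n2, n3, n4⟩, n5⟩ := hn'
  have hhβ : h ≠ β := fun e => n2 (by rw [← e]; simp)
  have hA : ∀ c ∈ A, h ≠ c ∧ β ≠ c := fun c hc =>
    ⟨fun e => n5 c hc h (by simp) e.symm, fun e => n5 c hc β (by simp) e.symm⟩
  have hB : ∀ c ∈ B, h ≠ c ∧ β ≠ c := fun c hc =>
    ⟨fun e => n3 (by rw [e]; exact hc), fun e => n2 (by rw [e]; simp [hc])⟩
  have hτn : (A ++ h :: B).Nodup := by
    rw [List.nodup_append, List.nodup_cons]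
    refine ⟨n1, ⟨n3, n4⟩, fun a ha x hx => n5 a ha x ?_⟩
    rcases List.mem_cons.1 hx with rfl | hx
    · simp
    · simp [hx]
  have hτmem : ∀ c, c < t → c ≠ β → c ∈ A ++ h :: B := by
    intro c hc hcβ
    have := hfull c hc
    simp only [List.mem_append, List.mem_cons] at this ⊢
    tauto
  have hτt : ∀ c ∈ A ++ h :: B, c < t := by
    intro c hc
    refine ht c ?_
    simp only [List.mem_append, List.mem_cons] at hc ⊢
    tauto
  have hτβ : β ∉ A ++ h :: B := by
    intro hc
    rcases List.mem_append.1 hc with hc | hc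
    · exact (hA β hc).2 rfl
    · rcases List.mem_cons.1 hc with hc | hc
      · exact hhβ hc.symm
      · exact (hB β hc).2 rfl
  obtain ⟨ρ, r1, r2, r3, r4⟩ := mv hh hβ l₃ hτn hτt (fun p hp => by
    obtain ⟨h1, h2, ⟨h3, h4⟩, h5, h6⟩ := hl₃ p hp
    exact ⟨h1.ne, hτmem _ (h1.trans h2) h4.symm, hτmem _ h2 h6.symm, ⟨h3, h4⟩, h5, h6⟩)
  have e0 : (A ++ h :: B).map (swap h β) = A ++ β :: B := by
    rw [List.map_append, List.map_cons, mapsw hA, mapsw hB, swap_apply_left]
  rw [e0] at r4
  have hbρ : b ∈ ρ := (r2 b).2 (hτmem b hbt hβb.ne')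
  have hhρ : h ∈ ρ := (r2 h).2 (by simp)
  have hβρ : β ∉ ρ := fun hc => hτβ ((r2 β).1 hc)
  have hρt : ∀ c ∈ ρ, c < t := fun c hc => hτt c ((r2 c).1 hc)
  obtain ⟨C₁, C₂, rfl⟩ := List.append_of_mem hbρ
  have r1' := r1
  rw [List.nodup_append, List.nodup_cons] at r1'
  obtain ⟨q1, ⟨q2, q3⟩, q4⟩ := r1'
  have hC1 : ∀ c ∈ C₁, β ≠ c ∧ b ≠ c := fun c hc =>
    ⟨fun e => hβρ (by rw [e]; simp [hc]), fun e => q4 c hc b (by simp) e.symm⟩
  have hC2 : ∀ c ∈ C₂, β ≠ c ∧ b ≠ c := fun c hc =>
    ⟨fun e => hβρ (by rw [e]; simp [hc]), fun e => q2 (by rw [e]; exact hc)⟩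
  have sb : swap h β b = b := swap_apply_of_ne_of_ne hhb.ne' hβb.ne'
  rw [List.map_append, List.map_cons, sb] at r4
  set D₁ := C₁.map (swap h β) with hD1
  set D₂ := C₂.map (swap h β) with hD2
  have hmap : ∀ C : List (Fin N), (∀ c ∈ C, β ≠ c ∧ b ≠ c) →
      ∀ c ∈ C.map (swap h β), h ≠ c ∧ b ≠ c := by
    intro C hC c hc
    obtain ⟨y, hy, rfl⟩ := List.mem_map.1 hc
    obtain ⟨hy1, hy2⟩ := hC y hy
    constructor
    · intro e
      have : swap h β h = swap h β (swap h β y) := congrArg _ e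
      rw [swap_apply_self, swap_apply_left] at this
      exact hy1 this
    · intro e
      have : swap h β b = swap h β (swap h β y) := congrArg _ e
      rw [swap_apply_self, sb] at this
      exact hy2 this
  have hD1' := hmap C₁ hC1
  have hD2' := hmap C₂ hC2
  rw [← hD1] at hD1'
  rw [← hD2] at hD2'
  have hback : ∀ C : List (Fin N), (C.map (swap h β)).map (swap h β) = C := by
    intro C
    rw [List.map_map]
    have : ∀ c ∈ C, (swap h β ∘ swap h β) c = id c := fun c _ => swap_apply_self h β c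
    rw [List.map_congr_left this, List.map_id]
  have hDt : ∀ C : List (Fin N), (∀ c ∈ C, c < t) → ∀ c ∈ C.map (swap h β), c < t := by
    intro C hC x hx
    obtain ⟨y, hy, rfl⟩ := List.mem_map.1 hx
    by_cases h1 : y = h
    · rw [h1, swap_apply_left]; exact hβ
    · by_cases h2 : y = β
      · rw [h2, swap_apply_right]; exact hh
      · rw [swap_apply_of_ne_of_ne h1 h2]; exact hC y hy
  -- the two conjugations
  have J : ∀ C : List (Fin N), C.Nodup → (∀ c ∈ C, c < t) → h ∈ C → β ∈ C →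
      X h β * zz t (C.map (swap h β)) = zz t C * X h β := by
    intro C k1 k2 k3 k4
    have := conj (t := t) hhβ (k1.map (swap h β).injective) (hDt C k2)
      (List.mem_map.2 ⟨β, k4, swap_apply_right h β⟩) (List.mem_map.2 ⟨h, k3, swap_apply_left h β⟩)
    rw [hback] at this
    exact this
  have hhC : h ∈ C₁ ∨ h ∈ C₂ := by
    rcases List.mem_append.1 hhρ with h1 | h1
    · exact Or.inl h1
    · rcases List.mem_cons.1 h1 with h1 | h1
      · exact absurd h1 hhb.ne
      · exact Or.inr h1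
  have hC1t : ∀ c ∈ C₁, c < t := fun c hc => hρt c (by simp [hc])
  have hC2t : ∀ c ∈ C₂, c < t := fun c hc => hρt c (by simp [hc])
  have J1 : X h β * zz t (D₁ ++ h :: D₂) = zz t (C₁ ++ β :: C₂) * X h β := by
    have := J (C₁ ++ β :: C₂) (by
      rw [List.nodup_append, List.nodup_cons]
      refine ⟨q1, ⟨fun hc => (hC2 β hc).1 rfl, q3⟩, fun a ha x hx => ?_⟩
      rcases List.mem_cons.1 hx with rfl | hx
      · exact (hC1 a ha).1.symm
      · exact q4 a ha x (by simp [hx])) (by
      intro c hc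
      simp only [List.mem_append, List.mem_cons] at hc
      rcases hc with hc | rfl | hc
      · exact hC1t c hc
      · exact hβ
      · exact hC2t c hc) (by simp only [List.mem_append, List.mem_cons]; tauto) (by simp)
    rw [List.map_append, List.map_cons, swap_apply_right] at this
    exact this
  have J2 : X h β * zz t (D₁ ++ b :: h :: D₂) = zz t (C₁ ++ b :: β :: C₂) * X h β := by
    have := J (C₁ ++ b :: β :: C₂) (by
      rw [List.nodup_append, List.nodup_cons, List.nodup_cons]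
      refine ⟨q1, ⟨?_, fun hc => (hC2 β hc).1 rfl, q3⟩, fun a ha x hx => ?_⟩
      · intro hc
        rcases List.mem_cons.1 hc with hc | hc
        · exact hβb.ne' hc
        · exact q2 hc
      · rcases List.mem_cons.1 hx with rfl | hx
        · exact (hC1 a ha).2.symm
        · rcases List.mem_cons.1 hx with rfl | hx
          · exact (hC1 a ha).1.symm
          · exact q4 a ha x (by simp [hx])) (by
      intro c hc
      simp only [List.mem_append, List.mem_cons] at hc
      rcases hc with hc | rfl | rfl | hc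
      · exact hC1t c hc
      · exact hbt
      · exact hβ
      · exact hC2t c hc) (by simp only [List.mem_append, List.mem_cons]; tauto) (by simp)
    rw [List.map_append, List.map_cons, List.map_cons, swap_apply_right, sb] at this
    exact this
  -- the letter `X h β` commutes with `l₃`
  have Cw : X h β * wd l₃ = wd l₃ * X h β := by
    refine H2.comm_wd h β fun p hp => ?_
    obtain ⟨h1, h2, ⟨h3, h4⟩, h5, h6⟩ := hl₃ p hp
    exact ⟨h3, h5, h4, h6⟩
  have T : X h b * X β b = (X β b * X h β - X h β * X h b : Pool.Agent.FKP.A N) := by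
    rw [X_path' hhβ hβb.ne hhb.ne]; abel
  have E0 := emis (t := t) hh.ne hβ.ne hhβ hA hB
  have E1 := emis (t := t) hh.ne hbt.ne hhb.ne hD1' hD2'
  have E2 := emis (t := t) hβ.ne hbt.ne hβb.ne hC1 hC2
  have key := dom_alg E0 Cw T r3 r4 E1 E2 J1 J2
  have e9 : wd (l₁ ++ (h, b) :: (β, b) :: l₃) * zz t (A ++ β :: B) -
      wd (l₁ ++ (β, b) :: l₃) * zz t (A ++ β :: h :: B) =
      wd l₁ * (X h b * (X β b * (wd l₃ * zz t (A ++ β :: B))) -
        X β b * (wd l₃ * zz t (A ++ β :: h :: B))) := by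
    rw [H2.wd_append, H2.wd_append, H2.wd_cons, H2.wd_cons]
    simp only [mul_sub, mul_assoc]
  rw [e9, key]
  refine mul_mem (H2.wd_mem hl₁) (mul_mem (zz_mem ?_) (mul_mem (X_mem hhb) (mul_mem (X_mem hβb)
    (H2.wd_mem fun p hp => (hl₃ p hp).1))))
  intro c hc
  simp only [List.mem_append, List.mem_cons] at hc
  rcases hc with hc | rfl | hc
  · exact hC1t c hc
  · exact hβ
  · exact hC2t c hc

theorem dom1 {t h β : Fin N} {A B : List (Fin N)} {l₁ l₂ : List (Fin N × Fin N)}
    (hn : (A ++ β :: h :: B).Nodup) (ht : ∀ c ∈ A ++ β :: h :: B, c < t)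
    (hl₁ : ∀ p ∈ l₁, p.1 < p.2) (hhβ : h < β)
    (hl₂ : ∀ p ∈ l₂, p.1 < p.2 ∧ (h ≠ p.1 ∧ β ≠ p.1) ∧ h ≠ p.2 ∧ β ≠ p.2) :
    wd (l₁ ++ (h, β) :: l₂) * zz t (A ++ β :: B) -
      wd (l₁ ++ l₂) * zz t (A ++ β :: h :: B) ∈ P N := by
  have hh : h < t := ht h (by simp)
  have hβ : β < t := ht β (by simp)
  have hn' := hn
  rw [List.nodup_append, List.nodup_cons, List.nodup_cons] at hn'
  obtain ⟨n1, ⟨n2, n3, n4⟩, n5⟩ := hn'
  have hA : ∀ c ∈ A, h ≠ c ∧ β ≠ c := fun c hc =>
    ⟨fun e => n5 c hc h (by simp) e.symm, fun e => n5 c hc β (by simp) e.symm⟩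
  have hB : ∀ c ∈ B, h ≠ c ∧ β ≠ c := fun c hc =>
    ⟨fun e => n3 (by rw [e]; exact hc), fun e => n2 (by rw [e]; simp [hc])⟩
  have E0 := emis (t := t) hh.ne hβ.ne hhβ.ne hA hB
  have Cw : X h β * wd l₂ = wd l₂ * X h β := by
    refine H2.comm_wd h β fun p hp => ?_
    obtain ⟨h1, ⟨h3, h4⟩, h5, h6⟩ := hl₂ p hp
    exact ⟨h3, h5, h4, h6⟩
  have e9 : wd (l₁ ++ (h, β) :: l₂) * zz t (A ++ β :: B) -
      wd (l₁ ++ l₂) * zz t (A ++ β :: h :: B) =
      wd l₁ * wd l₂ * (zz t (A ++ h :: B) * X h β) := by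
    rw [H2.wd_append, H2.wd_append, H2.wd_cons]
    show wd l₁ * (X h β * wd l₂) * zz t (A ++ β :: B) - _ = _
    rw [Cw]
    have : wd l₁ * (wd l₂ * X h β) * zz t (A ++ β :: B) =
        wd l₁ * wd l₂ * (X h β * zz t (A ++ β :: B)) := by simp only [mul_assoc]
    rw [this, E0, mul_add, add_sub_cancel_right]
  rw [e9]
  refine mul_mem (mul_mem (H2.wd_mem hl₁) (H2.wd_mem fun p hp => (hl₂ p hp).1))
    (mul_mem (zz_mem ?_) (X_mem hhβ))
  intro c hc
  refine ht c ?_
  simp only [List.mem_append, List.mem_cons] at hc ⊢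
  tauto

/-! ### powers of the last Dunkl element -/

open Classical in
/-- lists of length `d` without repetition and without `t` -/
def ND (t : Fin N) (d : ℕ) : Finset (List (Fin N)) :=
  (List.finite_length_eq (Fin N) d).toFinset.filter fun l => l.Nodup ∧ t ∉ l

theorem mem_ND {t : Fin N} {d : ℕ} {l : List (Fin N)} :
    l ∈ ND t d ↔ l.length = d ∧ l.Nodup ∧ t ∉ l := by
  simp [ND]

theorem pow_zz {t : Fin N} (ht : ∀ c, c ≠ t → c < t) (d : ℕ) :
    (∑ a ∈ univ.erase t, X a t : A N) ^ d = ∑ σ ∈ ND t d, zz t σ := by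
  classical
  induction d with
  | zero =>
    have : ND t 0 = {[]} := by
      ext l
      rw [mem_ND, Finset.mem_singleton, List.length_eq_zero_iff]
      constructor
      · exact fun h => h.1
      · rintro rfl; simp
    rw [this, pow_zero, Finset.sum_singleton, zz_nil]
  | succ d ih =>
    rw [pow_succ', ih, Finset.sum_mul_sum, ← Finset.sum_product',
      ← Finset.sum_filter_add_sum_filter_not _ (fun x : Fin N × List (Fin N) => x.1 ∉ x.2)]
    have h0 : ∑ x ∈ ((univ.erase t) ×ˢ ND t d).filter (fun x => ¬ x.1 ∉ x.2),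
        X x.1 t * zz t x.2 = (0 : A N) := by
      refine Finset.sum_eq_zero fun x hx => ?_
      rw [Finset.mem_filter, Finset.mem_product, mem_ND, not_not] at hx
      exact zz_kill hx.1.2.2.1 (fun c hc => ht c fun e => hx.1.2.2.2 (e ▸ hc)) hx.2
    rw [h0, add_zero]
    refine Finset.sum_bij (fun x _ => x.1 :: x.2) ?_ ?_ ?_ ?_
    · intro x hx
      rw [Finset.mem_filter, Finset.mem_product, mem_ND, Finset.mem_erase] at hx
      obtain ⟨⟨⟨h1, -⟩, h2, h3, h4⟩, h5⟩ := hx
      rw [mem_ND]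
      refine ⟨by rw [List.length_cons, h2], List.nodup_cons.2 ⟨h5, h3⟩, fun h => ?_⟩
      rcases List.mem_cons.1 h with h | h
      · exact h1 h.symm
      · exact h4 h
    · rintro ⟨a, l⟩ _ ⟨b, m⟩ _ h
      exact Prod.ext (List.cons.inj h).1 (List.cons.inj h).2
    · intro l hl
      rw [mem_ND] at hl
      obtain ⟨h1, h2, h3⟩ := hl
      rcases l with _ | ⟨a, l⟩
      · simp at h1
      · rw [List.nodup_cons] at h2
        refine ⟨(a, l), ?_, rfl⟩
        rw [Finset.mem_filter, Finset.mem_product, mem_ND, Finset.mem_erase]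
        refine ⟨⟨⟨fun e => h3 (by rw [← e]; simp), Finset.mem_univ _⟩, ?_, h2.2,
          fun h => h3 (by simp [h])⟩, h2.1⟩
        simpa using h1
    · rintro ⟨a, l⟩ _
      rw [zz_cons]

/-- a list of full length has all elements -/
theorem full {n : ℕ} {t : Fin (n + 2)} {σ : List (Fin (n + 2))} (h : σ ∈ ND t (n + 1))
    {c : Fin (n + 2)} (hc : c ≠ t) : c ∈ σ := by
  classical
  obtain ⟨h1, h2, h3⟩ := mem_ND.1 h
  have hs : σ.toFinset ⊆ univ.erase t := by
    intro x hx
    rw [List.mem_toFinset] at hx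
    exact Finset.mem_erase.2 ⟨fun e => h3 (e ▸ hx), Finset.mem_univ _⟩
  have he := Finset.eq_of_subset_of_card_le hs (by
    rw [Finset.card_erase_of_mem (Finset.mem_univ _), Finset.card_univ, Fintype.card_fin,
      List.toFinset_card_of_nodup h2, h1]
    omega)
  rw [← List.mem_toFinset, he]
  exact Finset.mem_erase.2 ⟨hc, Finset.mem_univ _⟩

/-! ### sums and injections -/

theorem sum_dom {α β : Type*} (s : Finset α) (u : Finset β) (f : α → A N) (g : β → A N)
    (R : α → β → Prop) (h1 : ∀ b ∈ u, ∃ a ∈ s, R a b ∧ f a - g b ∈ P N)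
    (h2 : ∀ a b b', R a b → R a b' → b = b') (h3 : ∀ a ∈ s, f a ∈ P N) :
    ∑ a ∈ s, f a - ∑ b ∈ u, g b ∈ P N := by
  classical
  rcases u.eq_empty_or_nonempty with rfl | ⟨b0, hb0⟩
  · rw [Finset.sum_empty, sub_zero]
    exact sum_mem h3
  have : Nonempty α := ⟨(h1 b0 hb0).choose⟩
  choose! Φ k1 k2 k3 using h1
  have hinj : Set.InjOn Φ (u : Set β) := by
    intro b hb b' hb' e
    exact h2 _ _ _ (k2 b hb) (by rw [e]; exact k2 b' hb')
  have hsub : u.image Φ ⊆ s := by
    intro x hx
    obtain ⟨b, hb, rfl⟩ := Finset.mem_image.1 hx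
    exact k1 b hb
  rw [← Finset.sum_sdiff hsub, Finset.sum_image hinj, add_sub_assoc, ← Finset.sum_sub_distrib]
  exact add_mem (sum_mem fun x hx => h3 x (Finset.mem_sdiff.1 hx).1)
    (sum_mem fun b hb => k3 b hb)

/-- a list with different rows has at most one letter in the row `h` -/
theorem spl_uniq {h b b' : Fin N} : ∀ {l₁ l₂ l₁' l₂' : List (Fin N × Fin N)},
    l₁ ++ (h, b) :: l₂ = l₁' ++ (h, b') :: l₂' → ((l₁ ++ (h, b) :: l₂).map Prod.fst).Nodup →
    l₁ = l₁' ∧ b = b' ∧ l₂ = l₂'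
  | [], l₂, [], l₂', e, _ => by
    simp only [List.nil_append, List.cons.injEq, Prod.mk.injEq, true_and] at e
    exact ⟨rfl, e.1, e.2⟩
  | [], l₂, q :: l, l₂', e, hn => by
    exfalso
    rw [List.nil_append, List.map_cons, List.nodup_cons] at hn
    rw [List.nil_append, List.cons_append] at e
    rw [(List.cons.inj e).2] at hn
    exact hn.1 (by simp)
  | q :: l, l₂, [], l₂', e, hn => by
    exfalso
    rw [List.cons_append, List.map_cons, List.nodup_cons] at hn
    rw [List.nil_append, List.cons_append] at e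
    rw [(List.cons.inj e).1] at hn
    exact hn.1 (by simp)
  | q :: l, l₂, q' :: l', l₂', e, hn => by
    rw [List.cons_append, List.cons_append] at e
    rw [List.cons_append, List.map_cons, List.nodup_cons] at hn
    obtain ⟨e1, e2⟩ := List.cons.inj e
    obtain ⟨i1, i2, i3⟩ := spl_uniq e2 hn.2
    exact ⟨by rw [e1, i1], i2, i3⟩

/-- the same for a list -/
theorem spl_uniq' {h : Fin N} : ∀ {l₁ l₂ l₁' l₂' : List (Fin N)},
    l₁ ++ h :: l₂ = l₁' ++ h :: l₂' → (l₁ ++ h :: l₂).Nodup → l₁ = l₁' ∧ l₂ = l₂'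
  | [], l₂, [], l₂', e, _ => by
    simp only [List.nil_append, List.cons.injEq, true_and] at e
    exact ⟨rfl, e⟩
  | [], l₂, q :: l, l₂', e, hn => by
    exfalso
    rw [List.nil_append, List.nodup_cons] at hn
    rw [List.nil_append, List.cons_append] at e
    rw [(List.cons.inj e).2] at hn
    exact hn.1 (by simp)
  | q :: l, l₂, [], l₂', e, hn => by
    exfalso
    rw [List.cons_append, List.nodup_cons] at hn
    rw [List.nil_append, List.cons_append] at e
    rw [(List.cons.inj e).1] at hn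
    exact hn.1 (by simp)
  | q :: l, l₂, q' :: l', l₂', e, hn => by
    rw [List.cons_append, List.cons_append] at e
    rw [List.cons_append, List.nodup_cons] at hn
    obtain ⟨e1, e2⟩ := List.cons.inj e
    obtain ⟨i1, i2⟩ := spl_uniq' e2 hn.2
    exact ⟨by rw [e1, i1], i2⟩

/-- the last element of `S` before the first one outside `S` -/
theorem first_out {S : Fin N → Prop} : ∀ {a : Fin N} {σ : List (Fin N)}, S a →
    (∃ h ∈ σ, ¬ S h) → ∃ U β h V, a :: σ = U ++ β :: h :: V ∧ S β ∧ ¬ S h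
  | a, [], _, h => by
    obtain ⟨h, hh, -⟩ := h
    simp at hh
  | a, c :: σ, ha, h => by
    by_cases hc : S c
    · obtain ⟨h, hh, hS⟩ := h
      have hh' : h ∈ σ := by
        rcases List.mem_cons.1 hh with rfl | hh
        · exact absurd hc hS
        · exact hh
      obtain ⟨U, β, h', V, e, h1, h2⟩ := first_out hc ⟨h, hh', hS⟩
      exact ⟨a :: U, β, h', V, by rw [e]; rfl, h1, h2⟩
    · exact ⟨[], a, c, σ, rfl, ha, hc⟩

theorem sorted_split {β : Fin N} : ∀ {l : List (Fin N × Fin N)},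
    l.Pairwise (fun p q => p.2 ≤ q.2) → ∃ l₁ l₂, l = l₁ ++ l₂ ∧ (∀ p ∈ l₁, p.2 ≤ β) ∧
      ∀ p ∈ l₂, β < p.2
  | [], _ => ⟨[], [], rfl, by simp, by simp⟩
  | p :: l, h => by
    rw [List.pairwise_cons] at h
    by_cases hp : p.2 ≤ β
    · obtain ⟨l₁, l₂, e, h1, h2⟩ := sorted_split (β := β) h.2
      refine ⟨p :: l₁, l₂, by rw [e]; rfl, ?_, h2⟩
      intro q hq
      rcases List.mem_cons.1 hq with rfl | hq
      · exact hp
      · exact h1 q hq
    · refine ⟨[], p :: l, rfl, by simp, ?_⟩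
      intro q hq
      rcases List.mem_cons.1 hq with rfl | hq
      · exact not_le.1 hp
      · exact lt_of_lt_of_le (not_le.1 hp) (h.1 q hq)

theorem mem_mid {α : Type*} {x p : α} {l₁ l₂ : List α} (hp : p ∈ l₁ ++ x :: l₂) :
    p = x ∨ p ∈ l₁ ++ l₂ := by
  rcases List.mem_append.1 hp with hp | hp
  · exact Or.inr (List.mem_append_left _ hp)
  · rcases List.mem_cons.1 hp with hp | hp
    · exact Or.inl hp
    · exact Or.inr (List.mem_append_right _ hp)

theorem mem_mid' {α : Type*} {x p : α} {l₁ l₂ : List α} (hp : p ∈ l₁ ++ l₂) :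
    p ∈ l₁ ++ x :: l₂ := by
  rcases List.mem_append.1 hp with hp | hp
  · exact List.mem_append_left _ hp
  · exact List.mem_append_right _ (List.mem_cons_of_mem _ hp)

/-! ### the relation between the summands -/

/-- the relation of a summand `x` and the summand `y` which it dominates -/
def RR (t : Fin N) (x y : List (Fin N × Fin N) × List (Fin N)) : Prop :=
  (∃ a, x.1 = y.1 ++ [(a, t)] ∧ y.2 = a :: x.2) ∨
  ((∀ p ∈ x.1, p.2 ≠ t) ∧ ∃ (h β b : Fin N) (l₁ l₂ : List (Fin N × Fin N)) (U V : List (Fin N)),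
    y.1 = l₁ ++ l₂ ∧ x.1 = l₁ ++ (h, b) :: l₂ ∧ y.2 = U ++ β :: h :: V ∧ x.2 = U ++ β :: V ∧
    h ∉ x.2 ∧ (∀ c, c ≠ t → c ≠ h → c ∈ x.2) ∧ h ≠ t ∧ (x.1.map Prod.fst).Nodup ∧ x.2.Nodup ∧
    ((∃ l₃, l₂ = (β, b) :: l₃) ∨ (b = β ∧ ∀ p ∈ l₂, β < p.2)))

theorem RR_uniq {t : Fin N} (x y y' : List (Fin N × Fin N) × List (Fin N)) (h1 : RR t x y)
    (h2 : RR t x y') : y = y' := by
  rcases h1 with ⟨a, e1, e2⟩ | ⟨hno, h, β, b, l₁, l₂, U, V, a1, a2, a3, a4, a5, a6, a7, a8, a9, a10⟩
  · rcases h2 with ⟨a', e1', e2'⟩ | ⟨hno', -⟩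
    · rw [e1] at e1'
      obtain ⟨k1, k2⟩ := List.append_inj' e1' rfl
      have k3 : a = a' := by
        simp only [List.cons.injEq, Prod.mk.injEq, and_true] at k2
        exact k2
      exact Prod.ext k1 (by rw [e2, e2', k3])
    · exact absurd rfl (hno' (a, t) (by rw [e1]; simp))
  · rcases h2 with ⟨a', e1', e2'⟩ | ⟨-, h', β', b', l₁', l₂', U', V', c1, c2, c3, c4, c5, c6, c7, c8,
      c9, c10⟩
    · exact absurd rfl (hno (a', t) (by rw [e1']; simp))
    · have hh : h' = h := by
        by_contra hne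
        exact c5 (a6 h' c7 hne)
      subst hh
      have e := a2.symm.trans c2
      obtain ⟨rfl, rfl, rfl⟩ := spl_uniq e (by rw [← a2]; exact a8)
      have hβ : β' = β := by
        rcases a10 with ⟨l₃, q1⟩ | ⟨q1, q2⟩
        · rcases c10 with ⟨l₃', q1'⟩ | ⟨q1', q2'⟩
          · rw [q1] at q1'
            simp only [List.cons.injEq, Prod.mk.injEq, and_true] at q1'
            exact q1'.1.symm
          · exfalso
            have := q2' (β, b) (by rw [q1]; simp)
            exact this.ne q1'.symm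
        · rcases c10 with ⟨l₃', q1'⟩ | ⟨q1', q2'⟩
          · exfalso
            have := q2 (β', b) (by rw [q1']; simp)
            exact this.ne q1.symm
          · exact q1'.symm.trans q1
      subst hβ
      have e' := a4.symm.trans c4
      obtain ⟨rfl, rfl⟩ := spl_uniq' e' (by rw [← a4]; exact a9)
      exact Prod.ext (a1.trans c1.symm) (a3.trans c3.symm)

/-- every summand of the negative part is dominated -/
theorem exists_dom {n j k : ℕ} {t : Fin (n + 2)} (ht : t.val = n + 1) (hk : k < j)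
    (hj : j ≤ n + 1) {l : List (Fin (n + 2) × Fin (n + 2))} {σ : List (Fin (n + 2))}
    (hl : l ∈ H2.LL (n + 2) j k) (hlt : ∀ p ∈ l, p.2 ≠ t) (hσ : σ ∈ ND t (n + 1)) :
    ∃ x ∈ H2.LL (n + 2) j (k + 1) ×ˢ ND t n, RR t x (l, σ) ∧
      wd x.1 * zz t x.2 - wd l * zz t σ ∈ P (n + 2) := by
  classical
  have hlt' : ∀ c : Fin (n + 2), c ≠ t → c < t := by
    intro c hc
    have h1 : c.val ≠ t.val := fun e => hc (Fin.ext e)
    exact Fin.lt_def.2 (by omega)
  have hle : ∀ c : Fin (n + 2), c ≤ t := fun c => Fin.le_def.2 (by omega)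
  have hfull : ∀ c : Fin (n + 2), c < t → c ∈ σ := fun c hc => full hσ hc.ne
  obtain ⟨l0, l1, l2, l3⟩ := H2.mem_LL.1 hl
  obtain ⟨s0, s1, s2⟩ := mem_ND.1 hσ
  have hσt : ∀ c ∈ σ, c < t := fun c hc => hlt' c fun e => s2 (e ▸ hc)
  have hpos : ∀ p ∈ l, p.1 < p.2 := fun p hp =>
    Fin.lt_def.2 (lt_of_lt_of_le (l1 p hp).1 (l1 p hp).2)
  set S : Fin (n + 2) → Prop := fun a => j ≤ a.val ∨ a ∈ l.map Prod.fst with hS
  rcases σ with _ | ⟨a, σ⟩
  · simp at s0
  by_cases ha : S a
  · -- the first element outside `S`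
    have hex : ∃ h : Fin (n + 2), h.val < j ∧ h ∉ l.map Prod.fst := by
      by_contra hcon
      push Not at hcon
      have h1 : (univ.filter fun i : Fin (n + 2) => i.val < j) ⊆ (l.map Prod.fst).toFinset := by
        intro i hi
        rw [List.mem_toFinset]
        exact hcon i (Finset.mem_filter.1 hi).2
      have h2 := Finset.card_le_card h1
      have h3 : (univ.filter fun i : Fin (n + 2) => i.val < j).card = j := by
        rw [Fin.card_filter_val_lt]
        omega
      rw [h3, List.toFinset_card_of_nodup l2, List.length_map, l0] at h2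
      omega
    obtain ⟨h0, hh0, hh0'⟩ := hex
    have hSh0 : ¬ S h0 := by
      intro h
      rcases h with h | h
      · omega
      · exact hh0' h
    have hh0σ : h0 ∈ σ := by
      have := hfull h0 (Fin.lt_def.2 (by omega))
      rcases List.mem_cons.1 this with e | e
      · exact absurd (e ▸ ha) hSh0
      · exact e
    obtain ⟨U, β, h, V, e, hβ, hh⟩ := first_out ha ⟨h0, hh0σ, hSh0⟩
    rw [e] at hσ hfull s0 s1 s2 hσt ⊢
    have hhj : h.val < j := by
      by_contra hcon
      exact hh (Or.inl (not_lt.1 hcon))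
    have hhl : h ∉ l.map Prod.fst := fun hc => hh (Or.inr hc)
    have hht : h ≠ t := by
      intro e; rw [e] at hhj; omega
    have hβt : β ≠ t := (hσt β (by simp)).ne
    have s1' := s1
    rw [List.nodup_append, List.nodup_cons, List.nodup_cons] at s1'
    obtain ⟨n1, ⟨n2, n3, n4⟩, n5⟩ := s1'
    have hτn : (U ++ β :: V).Nodup := by
      rw [List.nodup_append, List.nodup_cons]
      refine ⟨n1, ⟨fun hc => n2 (by simp [hc]), n4⟩, fun a ha x hx => n5 a ha x ?_⟩
      rcases List.mem_cons.1 hx with rfl | hx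
      · simp
      · simp [hx]
    have hhτ : h ∉ U ++ β :: V := by
      intro hc
      rcases List.mem_append.1 hc with hc | hc
      · exact n5 h hc h (by simp) rfl
      · rcases List.mem_cons.1 hc with hc | hc
        · exact n2 (by rw [hc]; simp)
        · exact n3 hc
    have hτ : U ++ β :: V ∈ ND t n := by
      rw [mem_ND]
      refine ⟨?_, hτn, ?_⟩
      · simp only [List.length_append, List.length_cons] at s0 ⊢
        omega
      · intro hc
        refine s2 ?_
        rcases mem_mid hc with rfl | hc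
        · simp
        · exact mem_mid' (mem_mid' hc)
    have hτf : ∀ c, c ≠ t → c ≠ h → c ∈ U ++ β :: V := by
      intro c hc hch
      rcases mem_mid (hfull c (hlt' c hc)) with rfl | h1
      · simp
      · rcases mem_mid h1 with h2 | h2
        · exact absurd h2 hch
        · exact mem_mid' h2
    by_cases hβj : j ≤ β.val
    · -- `β` is a column
      obtain ⟨l₁, l₂, rfl, k1, k2⟩ := sorted_split (β := β) l3
      have hmem : ∀ p ∈ l₁ ++ (h, β) :: l₂, p = (h, β) ∨ p ∈ l₁ ++ l₂ := fun p hp => mem_mid hp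
      have hrows : ((l₁ ++ (h, β) :: l₂).map Prod.fst).Nodup := by
        have hp : (l₁ ++ (h, β) :: l₂).Perm ((h, β) :: (l₁ ++ l₂)) := List.perm_middle
        rw [((hp.map Prod.fst).nodup_iff), List.map_cons, List.nodup_cons]
        exact ⟨hhl, l2⟩
      refine ⟨(l₁ ++ (h, β) :: l₂, U ++ β :: V), ?_, ?_, ?_⟩
      · rw [Finset.mem_product, H2.mem_LL]
        refine ⟨⟨?_, ?_, hrows, ?_⟩, hτ⟩
        · simp only [List.length_append, List.length_cons] at l0 ⊢
          omega
        · intro p hp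
          rcases hmem p hp with rfl | hp
          · exact ⟨hhj, hβj⟩
          · exact l1 p hp
        · rw [List.pairwise_append] at l3 ⊢
          refine ⟨l3.1, List.pairwise_cons.2 ⟨fun q hq => (k2 q hq).le, l3.2.1⟩, ?_⟩
          intro p hp q hq
          rcases List.mem_cons.1 hq with rfl | hq
          · exact k1 p hp
          · exact l3.2.2 p hp q hq
      · refine Or.inr ⟨?_, h, β, β, l₁, l₂, U, V, rfl, rfl, rfl, rfl, hhτ, hτf, hht, hrows, hτn,
          Or.inr ⟨rfl, k2⟩⟩
        intro p hp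
        rcases hmem p hp with rfl | hp
        · exact hβt
        · exact hlt p hp
      · refine dom1 s1 hσt (fun p hp => hpos p (by simp [hp])) (Fin.lt_def.2 (by omega)) ?_
        intro p hp
        have hp' : p ∈ l₁ ++ l₂ := by simp [hp]
        have h1 := l1 p hp'
        refine ⟨hpos p hp', ⟨?_, ?_⟩, ?_, (k2 p hp).ne⟩
        · intro e; exact hhl (List.mem_map.2 ⟨p, hp', e.symm⟩)
        · intro e; have := congrArg Fin.val e; have := h1.1; omega
        · intro e; have := congrArg Fin.val e; have := h1.2; omega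
    · -- `β` is a row
      have hβl : β ∈ l.map Prod.fst := by
        rcases hβ with hβ | hβ
        · exact absurd hβ hβj
        · exact hβ
      obtain ⟨⟨β', b⟩, hb1, hb2⟩ := List.mem_map.1 hβl
      simp only at hb2
      subst hb2
      obtain ⟨l₁, l₃, rfl⟩ := List.append_of_mem hb1
      have hb := l1 (β', b) hb1
      have hbt : b ≠ t := hlt (β', b) hb1
      have hb2 : j ≤ b.val := hb.2
      have hmem : ∀ p ∈ l₁ ++ (h, b) :: (β', b) :: l₃, p = (h, b) ∨ p ∈ l₁ ++ (β', b) :: l₃ :=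
        fun p hp => mem_mid hp
      have hrows : ((l₁ ++ (h, b) :: (β', b) :: l₃).map Prod.fst).Nodup := by
        have hp : (l₁ ++ (h, b) :: (β', b) :: l₃).Perm ((h, b) :: (l₁ ++ (β', b) :: l₃)) :=
          List.perm_middle
        rw [((hp.map Prod.fst).nodup_iff), List.map_cons, List.nodup_cons]
        exact ⟨hhl, l2⟩
      have l3' := l3
      rw [List.pairwise_append, List.pairwise_cons] at l3'
      refine ⟨(l₁ ++ (h, b) :: (β', b) :: l₃, U ++ β' :: V), ?_, ?_, ?_⟩
      · rw [Finset.mem_product, H2.mem_LL]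
        refine ⟨⟨?_, ?_, hrows, ?_⟩, hτ⟩
        · simp only [List.length_append, List.length_cons] at l0 ⊢
          omega
        · intro p hp
          rcases hmem p hp with rfl | hp
          · exact ⟨hhj, hb2⟩
          · exact l1 p hp
        · rw [List.pairwise_append, List.pairwise_cons, List.pairwise_cons]
          refine ⟨l3'.1, ⟨?_, l3'.2.1⟩, ?_⟩
          · intro q hq
            rcases List.mem_cons.1 hq with rfl | hq
            · exact le_rfl
            · exact l3'.2.1.1 q hq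
          · intro p hp q hq
            rcases List.mem_cons.1 hq with rfl | hq
            · exact l3'.2.2 p hp (β', b) (by simp)
            · exact l3'.2.2 p hp q hq
      · refine Or.inr ⟨?_, h, β', b, l₁, (β', b) :: l₃, U, V, rfl, rfl, rfl, rfl, hhτ, hτf, hht,
          hrows, hτn, Or.inl ⟨l₃, rfl⟩⟩
        intro p hp
        rcases hmem p hp with rfl | hp
        · exact hbt
        · exact hlt p hp
      · refine dom2 s1 hσt hfull (fun p hp => hpos p (by simp [hp])) (Fin.lt_def.2 (by omega))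
          (hpos _ hb1) (hlt' b hbt) ?_
        intro p hp
        have hp' : p ∈ l₁ ++ (β', b) :: l₃ := by simp [hp]
        have h1 := l1 p hp'
        refine ⟨hpos p hp', hlt' _ (hlt p hp'), ⟨?_, ?_⟩, ?_, ?_⟩
        · intro e; exact hhl (List.mem_map.2 ⟨p, hp', e.symm⟩)
        · intro e
          rw [List.map_append, List.map_cons, List.nodup_append, List.nodup_cons] at l2
          exact l2.2.1.1 (List.mem_map.2 ⟨p, hp, e.symm⟩)
        · intro e; have := congrArg Fin.val e; have := h1.2; omega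
        · intro e; have := congrArg Fin.val e; have := h1.2; omega
  · -- the letter `X a t`
    have haj : a.val < j := by
      by_contra hcon
      exact ha (Or.inl (not_lt.1 hcon))
    have hal : a ∉ l.map Prod.fst := fun hc => ha (Or.inr hc)
    refine ⟨(l ++ [(a, t)], σ), ?_, Or.inl ⟨a, rfl, rfl⟩, ?_⟩
    · rw [Finset.mem_product, H2.mem_LL, mem_ND]
      refine ⟨⟨?_, ?_, ?_, ?_⟩, ?_, ?_, ?_⟩
      · simp only [List.length_append, List.length_cons, List.length_nil]
        omega
      · intro p hp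
        rcases List.mem_append.1 hp with hp | hp
        · exact l1 p hp
        · rw [List.mem_singleton] at hp
          subst hp
          exact ⟨haj, by show j ≤ t.val; omega⟩
      · rw [List.map_append, List.nodup_append]
        refine ⟨l2, by simp, ?_⟩
        intro x hx y hy
        simp only [List.map_cons, List.map_nil, List.mem_singleton] at hy
        subst hy
        exact fun e => hal (e ▸ hx)
      · rw [List.pairwise_append]
        refine ⟨l3, by simp, ?_⟩
        intro p _ q hq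
        rw [List.mem_singleton] at hq
        subst hq
        exact hle _
      · simpa using s0
      · exact (List.nodup_cons.1 s1).2
      · exact fun hc => s2 (by simp [hc])
    · have : wd (l ++ [(a, t)]) * zz t σ = wd l * zz t (a :: σ) := by
        rw [H2.wd_append, H2.wd_cons, H2.wd_nil, mul_one, zz_cons, mul_assoc]
      show wd (l ++ [(a, t)]) * zz t σ - wd l * zz t (a :: σ) ∈ P (n + 2)
      rw [this, sub_self]
      exact zero_mem _

/-! ### the theorem -/

/-- TT2: rule T2 in the dual form -/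
def Tt2Stmt : Prop := ∀ (n j k : ℕ), k < j → j ≤ n + 1 →
  ev (n + 2) ((-MvPolynomial.X (Fin.last (n + 1))) ^ n *
    (ek (n + 2) j (k + 1) + MvPolynomial.X (Fin.last (n + 1)) * ek (n + 2) j k)) ∈ P (n + 2)

theorem tt2 : Tt2Stmt := by
  classical
  intro n j k hk hj
  set t := Fin.last (n + 1) with ht
  have htv : t.val = n + 1 := rfl
  have hlt' : ∀ c : Fin (n + 2), c ≠ t → c < t := by
    intro c hc
    have h1 : c.val ≠ t.val := fun e => hc (Fin.ext e)
    exact Fin.lt_def.2 (by omega)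
  have hy : -θ t = (∑ a ∈ univ.erase t, X a t : A (n + 2)) := by
    rw [θ, ← Finset.add_sum_erase _ _ (Finset.mem_univ t), X_self, zero_add,
      ← Finset.sum_neg_distrib]
    exact Finset.sum_congr rfl fun a _ => (X_neg t a).symm
  have e1 : (-MvPolynomial.X t : MvPolynomial (Fin (n + 2)) ℤ) ^ n *
      (ek (n + 2) j (k + 1) + MvPolynomial.X t * ek (n + 2) j k) =
      ek (n + 2) j (k + 1) * (-MvPolynomial.X t) ^ n -
        ek (n + 2) j k * (-MvPolynomial.X t) ^ (n + 1) := by ring
  have pix := H20.pix Fin1.str Fin1.col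
  rw [e1, map_sub, map_mul, map_mul, map_pow, map_pow, map_neg, ev_X, hy, pow_zz hlt', pow_zz hlt',
    pix (n + 2) j (k + 1) (by omega), pix (n + 2) j k (by omega), Finset.sum_mul_sum,
    Finset.sum_mul_sum, ← Finset.sum_product', ← Finset.sum_product']
  rw [← Finset.sum_filter_add_sum_filter_not (H2.LL (n + 2) j k ×ˢ ND t (n + 1))
    (fun x : List (Fin (n + 2) × Fin (n + 2)) × List (Fin (n + 2)) => ∀ p ∈ x.1, p.2 ≠ t)]
  have h0 : ∑ x ∈ (H2.LL (n + 2) j k ×ˢ ND t (n + 1)).filter (fun x => ¬ ∀ p ∈ x.1, p.2 ≠ t),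
      wd x.1 * zz t x.2 = (0 : A (n + 2)) := by
    refine Finset.sum_eq_zero fun x hx => ?_
    obtain ⟨l, σ⟩ := x
    rw [Finset.mem_filter, Finset.mem_product] at hx
    obtain ⟨⟨hl, hσ⟩, hx⟩ := hx
    simp only at hl hσ hx
    push Not at hx
    obtain ⟨p, hp, hpt⟩ := hx
    obtain ⟨-, l1, -, l3⟩ := H2.mem_LL.1 hl
    rcases List.eq_nil_or_concat l with rfl | ⟨l', q, rfl⟩
    · simp at hp
    · rw [List.concat_eq_append] at hp l1 l3 ⊢
      have hq : q.2 = t := by
        rcases List.mem_append.1 hp with hp | hp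
        · rw [List.pairwise_append] at l3
          have := l3.2.2 p hp q (by simp)
          rw [hpt] at this
          exact le_antisymm (Fin.le_def.2 (by omega)) this
        · rw [List.mem_singleton] at hp
          rw [← hp]; exact hpt
      have hq1 : q.1 ≠ t := by
        intro e
        have h1 := (l1 q (by simp)).1
        have := congrArg Fin.val e
        omega
      obtain ⟨s0, s1, s2⟩ := mem_ND.1 hσ
      show wd (l' ++ [q]) * zz t σ = 0
      rw [H2.wd_append, H2.wd_cons, H2.wd_nil, mul_one, mul_assoc, hq,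
        zz_kill s1 (fun c hc => hlt' c fun e => s2 (e ▸ hc)) (full hσ hq1), mul_zero]
  rw [h0, add_zero]
  refine sum_dom _ _ (fun x : List (Fin (n + 2) × Fin (n + 2)) × List (Fin (n + 2)) =>
    wd x.1 * zz t x.2) (fun x : List (Fin (n + 2) × Fin (n + 2)) × List (Fin (n + 2)) =>
    wd x.1 * zz t x.2) (RR t) ?_ RR_uniq ?_
  · rintro ⟨l, σ⟩ hx
    rw [Finset.mem_filter, Finset.mem_product] at hx
    exact exists_dom htv hk hj hx.1.1 hx.2 hx.1.2
  · rintro ⟨l, σ⟩ hx
    rw [Finset.mem_product] at hx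
    obtain ⟨-, l1, -, -⟩ := H2.mem_LL.1 hx.1
    obtain ⟨-, -, s2⟩ := mem_ND.1 hx.2
    exact mul_mem (H2.wd_mem fun p hp => Fin.lt_def.2 (lt_of_lt_of_le (l1 p hp).1 (l1 p hp).2))
      (zz_mem fun c hc => hlt' c fun e => s2 (e ▸ hc))

end Pool.Agent.FKP.H75
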